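import Mathlib

set_option autoImplicit false

/-!
# Cantor series normal numbers that fail every kind of AP normality

We construct a nondecreasing basic sequence `q` tending to infinity, fully divergent of type I,
and a real number `x` which is `Q`-normal of every order, but which is in none of the sets
`N^{AP}_k(Q; m, r)`, for every order `k ≥ 1`, every modulus `m ≥ 2` and every residue `r < m`.

Construction. Stage `s` consists of the positions `a s ≤ i < a (s + 1)`; there `q i = b s` is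
constant, the positions are cut into slots of length `M s = s !`, and in each slot the digits are
`w_1, …, w_l, s, s, …, s` where `w` is a (possibly empty) word in the letters `0, …, s - 1`, read
off from the base `b s` digits of the position of the slot. So a fixed block occurs (up to a
negligible number of exceptions) only at positions divisible by `s !`.
-/

namespace Pool.Agent.Results.MP_8144ad_nt.TotalAPFailure

open Filter Topology

/-- `q` is a basic sequence: `q n ≥ 2` for all `n ≥ 1` (the value `q 0` is irrelevant). -/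
def IsBasic (q : ℕ → ℕ) : Prop := ∀ n, 1 ≤ n → 2 ≤ q n

/-- The product `q_1 q_2 ⋯ q_n`. -/
def prodQ (q : ℕ → ℕ) (n : ℕ) : ℕ := ∏ i ∈ Finset.Icc 1 n, q i

/-- `E_1, E_2, …` is the sequence of digits of the `Q`-Cantor series expansion of `x`
(`E_0 = ⌊x⌋` is not recorded). -/
def IsCantorExpansion (q : ℕ → ℕ) (x : ℝ) (E : ℕ → ℕ) : Prop :=
  (∀ n, 1 ≤ n → E n < q n) ∧ (∃ᶠ n in atTop, E n ≠ q n - 1) ∧
    HasSum (fun n : ℕ => (E (n + 1) : ℝ) / (prodQ q (n + 1) : ℝ)) (x - ⌊x⌋)

/-- The block `B` of length `k` occurs at position `i`: `(E_i, …, E_{i+k-1}) = B`. -/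
def OccursAt (E : ℕ → ℕ) {k : ℕ} (B : Fin k → ℕ) (i : ℕ) : Prop :=
  ∀ j : Fin k, E (i + j) = B j

instance decOccursAt (E : ℕ → ℕ) {k : ℕ} (B : Fin k → ℕ) : DecidablePred (OccursAt E B) := fun i =>
  inferInstanceAs (Decidable (∀ j : Fin k, E (i + j) = B j))

/-- `N_n(B)`: the number of positions `1 ≤ i ≤ n` at which `B` occurs. -/
def blockCount (E : ℕ → ℕ) {k : ℕ} (B : Fin k → ℕ) (n : ℕ) : ℕ :=
  ((Finset.Icc 1 n).filter (fun i => OccursAt E B i)).card

/-- `1 / (q_j q_{j+1} ⋯ q_{j+k-1})`. -/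
noncomputable def wt (q : ℕ → ℕ) (k j : ℕ) : ℝ := 1 / ∏ t ∈ Finset.range k, (q (j + t) : ℝ)

/-- `Q_n^{(k)} = ∑_{j=1}^n 1 / (q_j q_{j+1} ⋯ q_{j+k-1})`. -/
noncomputable def weight (q : ℕ → ℕ) (k n : ℕ) : ℝ := ∑ j ∈ Finset.Icc 1 n, wt q k j

/-- `N_{n,m,r}(B)`: the number of positions `1 ≤ i ≤ n`, `i ≡ r (mod m)`, at which `B` occurs. -/
def blockCountAP (E : ℕ → ℕ) {k : ℕ} (B : Fin k → ℕ) (m r n : ℕ) : ℕ :=
  ((Finset.Icc 1 n).filter (fun i => i ≡ r [MOD m] ∧ OccursAt E B i)).card

/-- `Q^{(k)}_{n,m,r}`: the sum of `1 / (q_i q_{i+1} ⋯ q_{i+k-1})` over `1 ≤ i ≤ n` with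
`i ≡ r (mod m)`. -/
noncomputable def weightAP (q : ℕ → ℕ) (k m r n : ℕ) : ℝ :=
  ∑ j ∈ (Finset.Icc 1 n).filter (fun i => i ≡ r [MOD m]), wt q k j

/-- `Q` is fully divergent of type I. -/
def FullyDivergentI (q : ℕ → ℕ) : Prop :=
  ∀ k m r, 1 ≤ k → 1 ≤ m → r < m → Tendsto (fun n => weightAP q k m r n) atTop atTop

/-- `N(Q)`: the set of reals that are `Q`-normal of every order `k ≥ 1`. -/
def NormalSet (q : ℕ → ℕ) : Set ℝ :=
  {x | ∃ E, IsCantorExpansion q x E ∧ ∀ k, 1 ≤ k → ∀ B : Fin k → ℕ,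
    Tendsto (fun n => (blockCount E B n : ℝ) / weight q k n) atTop (𝓝 1)}

/-- `N^{AP}_k(Q; m, r)`. -/
def APNormalSet (q : ℕ → ℕ) (k m r : ℕ) : Set ℝ :=
  {x | ∃ E, IsCantorExpansion q x E ∧ ∀ B : Fin k → ℕ,
    Tendsto (fun n => (blockCountAP E B m r n : ℝ) / weightAP q k m r n) atTop (𝓝 1)}

lemma prodQ_zero (q : ℕ → ℕ) : prodQ q 0 = 1 := by simp [prodQ]

lemma prodQ_succ (q : ℕ → ℕ) (n : ℕ) : prodQ q (n + 1) = prodQ q n * q (n + 1) := by
  unfold prodQ
  rw [Finset.prod_Icc_succ_top (by omega)]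

lemma two_pow_le_prodQ {q : ℕ → ℕ} (hq : IsBasic q) (n : ℕ) : 2 ^ n ≤ prodQ q n := by
  induction n with
  | zero => simp [prodQ_zero]
  | succ n ih =>
    rw [prodQ_succ, pow_succ]
    exact Nat.mul_le_mul ih (hq _ (by omega))

lemma prodQ_pos {q : ℕ → ℕ} (hq : IsBasic q) (n : ℕ) : 0 < prodQ q n :=
  lt_of_lt_of_le (by positivity) (two_pow_le_prodQ hq n)

lemma prodQ_pos' {q : ℕ → ℕ} (hq : IsBasic q) (n : ℕ) : (0 : ℝ) < (prodQ q n : ℝ) := by
  exact_mod_cast prodQ_pos hq n

lemma tendsto_inv_prodQ {q : ℕ → ℕ} (hq : IsBasic q) :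
    Tendsto (fun n => 1 / (prodQ q n : ℝ)) atTop (𝓝 0) := by
  have h1 : Tendsto (fun n : ℕ => (1 / 2 : ℝ) ^ n) atTop (𝓝 0) :=
    tendsto_pow_atTop_nhds_zero_of_lt_one (by norm_num) (by norm_num)
  refine squeeze_zero (fun n => by positivity) (fun n => ?_) h1
  rw [one_div_pow]
  apply one_div_le_one_div_of_le (by positivity)
  exact_mod_cast two_pow_le_prodQ hq n

/-- telescoping majorant -/
lemma hasSum_tele {q : ℕ → ℕ} (hq : IsBasic q) (N : ℕ) :
    HasSum (fun n : ℕ => 1 / (prodQ q (n + N) : ℝ) - 1 / (prodQ q (n + 1 + N) : ℝ))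
      (1 / (prodQ q N : ℝ)) := by
  rw [hasSum_iff_tendsto_nat_of_nonneg]
  · have h1 : ∀ K : ℕ, ∑ i ∈ Finset.range K, (1 / (prodQ q (i + N) : ℝ) - 1 / (prodQ q (i + 1 + N) : ℝ))
        = 1 / (prodQ q (0 + N) : ℝ) - 1 / (prodQ q (K + N) : ℝ) := by
      intro K
      exact Finset.sum_range_sub' (fun i => 1 / (prodQ q (i + N) : ℝ)) K
    simp only [h1]
    have h2 : Tendsto (fun K : ℕ => 1 / (prodQ q (K + N) : ℝ)) atTop (𝓝 0) :=
      (tendsto_inv_prodQ hq).comp (tendsto_add_atTop_nat N)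
    simpa using (tendsto_const_nhds (x := 1 / (prodQ q (0 + N) : ℝ))).sub h2
  · intro n
    rw [sub_nonneg]
    apply one_div_le_one_div_of_le (prodQ_pos' hq _)
    have : prodQ q (n + 1 + N) = prodQ q (n + N) * q (n + N + 1) := by
      rw [show n + 1 + N = n + N + 1 by ring, prodQ_succ]
    rw [this]
    push_cast
    have h2 : (2 : ℝ) ≤ q (n + N + 1) := by exact_mod_cast hq (n + N + 1) (by omega)
    nlinarith [prodQ_pos' hq (n + N)]

lemma term_eq {q : ℕ → ℕ} (hq : IsBasic q) (n : ℕ) :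
    1 / (prodQ q n : ℝ) - 1 / (prodQ q (n + 1) : ℝ) = ((q (n + 1) : ℝ) - 1) / (prodQ q (n + 1) : ℝ) := by
  have h1 := prodQ_pos' hq n
  have h2 : (0 : ℝ) < q (n + 1) := by
    have := hq (n + 1) (by omega)
    exact_mod_cast (by omega : 0 < q (n + 1))
  rw [prodQ_succ]
  push_cast
  field_simp

lemma term_le {q E : ℕ → ℕ} (hq : IsBasic q) (hE : ∀ n, 1 ≤ n → E n < q n) (n : ℕ) :
    (E (n + 1) : ℝ) / (prodQ q (n + 1) : ℝ) ≤ 1 / (prodQ q n : ℝ) - 1 / (prodQ q (n + 1) : ℝ) := by
  rw [term_eq hq]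
  apply div_le_div_of_nonneg_right _ (prodQ_pos' hq _).le
  have := hE (n + 1) (by omega)
  have h : ((E (n + 1) + 1 : ℕ) : ℝ) ≤ (q (n + 1) : ℝ) := by exact_mod_cast this
  push_cast at h
  linarith

lemma term_lt {q E : ℕ → ℕ} (hq : IsBasic q) (hE : ∀ n, 1 ≤ n → E n < q n) (n : ℕ)
    (hn : E (n + 1) ≠ q (n + 1) - 1) :
    (E (n + 1) : ℝ) / (prodQ q (n + 1) : ℝ) < 1 / (prodQ q n : ℝ) - 1 / (prodQ q (n + 1) : ℝ) := by
  rw [term_eq hq]
  apply div_lt_div_of_pos_right _ (prodQ_pos' hq _)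
  have := hE (n + 1) (by omega)
  have h : ((E (n + 1) + 2 : ℕ) : ℝ) ≤ (q (n + 1) : ℝ) := by exact_mod_cast (by omega)
  push_cast at h
  linarith

lemma summable_terms {q E : ℕ → ℕ} (hq : IsBasic q) (hE : ∀ n, 1 ≤ n → E n < q n) :
    Summable (fun n : ℕ => (E (n + 1) : ℝ) / (prodQ q (n + 1) : ℝ)) := by
  refine Summable.of_nonneg_of_le (fun n => by positivity) (fun n => term_le hq hE n) ?_
  simpa using (hasSum_tele hq 0).summable

/-- the tail of the series is in `[0, 1 / P_N)` -/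
lemma tail_bounds {q E : ℕ → ℕ} {y : ℝ} (hq : IsBasic q) (hE : ∀ n, 1 ≤ n → E n < q n)
    (hf : ∃ᶠ n in atTop, E n ≠ q n - 1)
    (hs : HasSum (fun n : ℕ => (E (n + 1) : ℝ) / (prodQ q (n + 1) : ℝ)) y) (N : ℕ) :
    0 ≤ y - ∑ i ∈ Finset.range N, (E (i + 1) : ℝ) / (prodQ q (i + 1) : ℝ) ∧
    y - ∑ i ∈ Finset.range N, (E (i + 1) : ℝ) / (prodQ q (i + 1) : ℝ) < 1 / (prodQ q N : ℝ) := by
  have h1 : HasSum (fun n : ℕ => (E (n + N + 1) : ℝ) / (prodQ q (n + N + 1) : ℝ))
      (y - ∑ i ∈ Finset.range N, (E (i + 1) : ℝ) / (prodQ q (i + 1) : ℝ)) :=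
    (hasSum_nat_add_iff' (f := fun n : ℕ => (E (n + 1) : ℝ) / (prodQ q (n + 1) : ℝ)) N).2 hs
  constructor
  · exact h1.nonneg (fun n => by positivity)
  · obtain ⟨n0, hn0, hne⟩ := (frequently_atTop.1 hf) (N + 1)
    have h2 := hasSum_tele hq N
    refine hasSum_lt (i := n0 - 1 - N) (fun n => ?_) ?_ h1 h2
    · have := term_le hq hE (n + N)
      have e : n + 1 + N = n + N + 1 := by ring
      rw [e]
      exact this
    · have e1 : n0 - 1 - N + N + 1 = n0 := by omega
      have := term_lt hq hE (n0 - 1 - N + N) (by rw [e1]; exact hne)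
      have e : n0 - 1 - N + 1 + N = n0 - 1 - N + N + 1 := by ring
      rw [e]
      exact this

/-- integer numerators of the partial sums -/
def num (q E : ℕ → ℕ) : ℕ → ℕ
  | 0 => 0
  | n + 1 => num q E n * q (n + 1) + E (n + 1)

lemma sum_range_eq_num {q E : ℕ → ℕ} (hq : IsBasic q) (N : ℕ) :
    ∑ i ∈ Finset.range N, (E (i + 1) : ℝ) / (prodQ q (i + 1) : ℝ) = (num q E N : ℝ) / prodQ q N := by
  induction N with
  | zero => simp [num]
  | succ N ih =>
    rw [Finset.sum_range_succ, ih, num, prodQ_succ]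
    have h1 := prodQ_pos' hq N
    have h2 : (0 : ℝ) < q (N + 1) := by
      have := hq (N + 1) (by omega)
      exact_mod_cast (by omega : 0 < q (N + 1))
    push_cast
    field_simp

lemma num_eq_floor {q E : ℕ → ℕ} {y : ℝ} (hq : IsBasic q) (hE : ∀ n, 1 ≤ n → E n < q n)
    (hf : ∃ᶠ n in atTop, E n ≠ q n - 1)
    (hs : HasSum (fun n : ℕ => (E (n + 1) : ℝ) / (prodQ q (n + 1) : ℝ)) y) (N : ℕ) :
    (num q E N : ℤ) = ⌊(prodQ q N : ℝ) * y⌋ := by
  obtain ⟨h1, h2⟩ := tail_bounds hq hE hf hs N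
  rw [sum_range_eq_num hq] at h1 h2
  have hp := prodQ_pos' hq N
  symm
  rw [Int.floor_eq_iff]
  constructor
  · have : (num q E N : ℝ) / prodQ q N ≤ y := by linarith
    rw [div_le_iff₀ hp] at this
    push_cast
    linarith
  · have : y < (num q E N : ℝ) / prodQ q N + 1 / prodQ q N := by linarith
    rw [← add_div, lt_div_iff₀ hp] at this
    push_cast
    linarith

/-- digits of the expansion are unique -/
lemma expansion_unique {q E E' : ℕ → ℕ} {x : ℝ} (hq : IsBasic q) (h : IsCantorExpansion q x E)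
    (h' : IsCantorExpansion q x E') (n : ℕ) (hn : 1 ≤ n) : E n = E' n := by
  obtain ⟨a, b, c⟩ := h
  obtain ⟨a', b', c'⟩ := h'
  obtain ⟨m, rfl⟩ : ∃ m, n = m + 1 := ⟨n - 1, by omega⟩
  have e1 : num q E m = num q E' m := by
    have := (num_eq_floor hq a b c m).trans (num_eq_floor hq a' b' c' m).symm
    exact_mod_cast this
  have e2 : num q E (m + 1) = num q E' (m + 1) := by
    have := (num_eq_floor hq a b c (m + 1)).trans (num_eq_floor hq a' b' c' (m + 1)).symm
    exact_mod_cast this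
  simp only [num] at e2
  rw [e1] at e2
  omega

/-- every digit sequence which is never maximal is the expansion of its sum -/
lemma exists_expansion {q E : ℕ → ℕ} (hq : IsBasic q) (hE : ∀ n, 1 ≤ n → E n < q n)
    (hf : ∃ᶠ n in atTop, E n ≠ q n - 1) : ∃ x : ℝ, IsCantorExpansion q x E := by
  obtain ⟨y, hy⟩ := summable_terms hq hE
  have h := tail_bounds hq hE hf hy 0
  simp only [Finset.range_zero, Finset.sum_empty, sub_zero, prodQ_zero, Nat.cast_one, div_one] at h
  refine ⟨y, hE, hf, ?_⟩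
  have : ⌊y⌋ = 0 := Int.floor_eq_zero_iff.2 ⟨h.1, h.2⟩
  rw [this]
  simpa using hy


lemma ap_bound_aux {w : ℕ → ℝ} (hanti : ∀ i, 1 ≤ i → w (i + 1) ≤ w i) (h0 : ∀ i, 0 ≤ w i)
    (h1 : w 1 ≤ 1) {m r : ℕ} (hr : r < m) (n : ℕ) :
    ∃ t : ℕ, t < m ∧ n ≡ r + t [MOD m] ∧
      ((m : ℝ) - 1 - t) * w (n + 1) - m ≤
        m * (∑ i ∈ (Finset.Icc 1 n).filter (fun i => i ≡ r [MOD m]), w i)
          - ∑ i ∈ Finset.Icc 1 n, w i ∧
      m * (∑ i ∈ (Finset.Icc 1 n).filter (fun i => i ≡ r [MOD m]), w i)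
          - ∑ i ∈ Finset.Icc 1 n, w i ≤ m - (t + 1) * w (n + 1) := by
  induction n with
  | zero =>
    refine ⟨(m - r) % m, Nat.mod_lt _ (by omega), ?_, ?_, ?_⟩
    · have : r + (m - r) % m ≡ r + (m - r) [MOD m] := (Nat.mod_modEq _ _).add_left r
      have h2 : r + (m - r) = m := by omega
      rw [h2] at this
      exact ((Nat.modEq_zero_iff_dvd.2 dvd_rfl).symm).trans this.symm
    · have h2 : ((m : ℝ) - 1 - ((m - r) % m : ℕ)) ≤ m := by
        have : (0 : ℝ) ≤ (((m - r) % m : ℕ) : ℝ) := by positivity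
        linarith
      have h3 := h0 1
      have h4 : ((m : ℝ) - 1 - ((m - r) % m : ℕ)) * w 1 ≤ m * 1 := by
        have hm0 : (0 : ℝ) ≤ m := by positivity
        calc ((m : ℝ) - 1 - ((m - r) % m : ℕ)) * w 1 ≤ m * w 1 := mul_le_mul_of_nonneg_right h2 h3
          _ ≤ m * 1 := mul_le_mul_of_nonneg_left h1 hm0
      simp only [zero_add]
      simp
      linarith
    · have h2 : ((((m - r) % m : ℕ) : ℝ) + 1) ≤ m := by
        have : (m - r) % m < m := Nat.mod_lt _ (by omega)
        exact_mod_cast this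
      have h3 := h0 1
      have h4 : ((((m - r) % m : ℕ) : ℝ) + 1) * w 1 ≤ m * 1 := by
        have hm0 : (0 : ℝ) ≤ m := by positivity
        calc ((((m - r) % m : ℕ) : ℝ) + 1) * w 1 ≤ m * w 1 := mul_le_mul_of_nonneg_right h2 h3
          _ ≤ m * 1 := mul_le_mul_of_nonneg_left h1 hm0
      simp only [zero_add]
      simp
      linarith
  | succ n ih =>
    obtain ⟨t, ht, hmod, hlo, hhi⟩ := ih
    rw [Finset.sum_filter] at hlo hhi ⊢
    rw [Finset.sum_Icc_succ_top (by omega), Finset.sum_Icc_succ_top (by omega)]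
    set A := ∑ i ∈ Finset.Icc 1 n, (if i ≡ r [MOD m] then w i else 0) with hA
    set S := ∑ i ∈ Finset.Icc 1 n, w i with hS
    have hw := hanti (n + 1) (by omega)
    have hw0 := h0 (n + 2)
    have hmod' : n + 1 ≡ r + (t + 1) [MOD m] := by
      have := hmod.add_right 1
      rwa [add_assoc] at this
    by_cases hc : t + 1 = m
    · refine ⟨0, by omega, ?_, ?_, ?_⟩
      · rw [hc] at hmod'
        simpa using hmod'
      · have hif : n + 1 ≡ r [MOD m] := by
          rw [hc] at hmod'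
          simpa using hmod'
        rw [if_pos hif]
        have ht' : (t : ℝ) = m - 1 := by
          have : ((t + 1 : ℕ) : ℝ) = m := by exact_mod_cast hc
          push_cast at this
          linarith
        rw [ht'] at hlo
        have hm1 : (0 : ℝ) ≤ (m : ℝ) - 1 := by
          have : (1 : ℝ) ≤ m := by exact_mod_cast (by omega : 1 ≤ m)
          linarith
        have := mul_le_mul_of_nonneg_left hw hm1
        push_cast
        nlinarith
      · have hif : n + 1 ≡ r [MOD m] := by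
          rw [hc] at hmod'
          simpa using hmod'
        rw [if_pos hif]
        have ht' : (t : ℝ) = m - 1 := by
          have : ((t + 1 : ℕ) : ℝ) = m := by exact_mod_cast hc
          push_cast at this
          linarith
        rw [ht'] at hhi
        push_cast
        nlinarith
    · have hif : ¬ (n + 1 ≡ r [MOD m]) := by
        intro h
        have h2 : r ≡ r + (t + 1) [MOD m] := h.symm.trans hmod'
        have h3 : t + 1 ≡ 0 [MOD m] := by
          have : r + 0 ≡ r + (t + 1) [MOD m] := by simpa using h2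
          exact (Nat.ModEq.add_left_cancel' r this).symm
        have h4 : m ∣ t + 1 := (Nat.modEq_zero_iff_dvd).1 h3
        have h5 := Nat.le_of_dvd (by omega) h4
        omega
      rw [if_neg hif]
      refine ⟨t + 1, by omega, hmod', ?_, ?_⟩
      · have hm1 : (0 : ℝ) ≤ (m : ℝ) - 1 - ((t + 1 : ℕ) : ℝ) := by
          have : ((t + 2 : ℕ) : ℝ) ≤ m := by exact_mod_cast (by omega)
          push_cast at this ⊢
          linarith
        have := mul_le_mul_of_nonneg_left hw hm1
        push_cast at this ⊢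
        nlinarith
      · have hm1 : (0 : ℝ) ≤ ((t + 1 : ℕ) : ℝ) + 1 := by positivity
        have := mul_le_mul_of_nonneg_left hw hm1
        push_cast at this ⊢
        nlinarith

lemma ap_bound {w : ℕ → ℝ} (hanti : ∀ i, 1 ≤ i → w (i + 1) ≤ w i) (h0 : ∀ i, 0 ≤ w i)
    (h1 : w 1 ≤ 1) {m r : ℕ} (hr : r < m) (n : ℕ) :
    |m * (∑ i ∈ (Finset.Icc 1 n).filter (fun i => i ≡ r [MOD m]), w i)
          - ∑ i ∈ Finset.Icc 1 n, w i| ≤ m := by
  obtain ⟨t, ht, _, hlo, hhi⟩ := ap_bound_aux hanti h0 h1 hr n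
  rw [abs_le]
  have hw := h0 (n + 1)
  constructor
  · have : (0 : ℝ) ≤ (m : ℝ) - 1 - t := by
      have : ((t + 1 : ℕ) : ℝ) ≤ m := by exact_mod_cast ht
      push_cast at this
      linarith
    nlinarith [mul_nonneg this hw]
  · have : (0 : ℝ) ≤ (t : ℝ) + 1 := by positivity
    nlinarith [mul_nonneg this hw]

/-- number of elements of a periodic set in an interval -/
lemma periodic_upper (P : ℕ → Prop) [DecidablePred P] {N : ℕ} (hN : 0 < N)
    (hP : Function.Periodic P N) (c d : ℕ) :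
    ((Finset.Ico c d).filter P).card ≤ N.count P * ((d - c) / N + 1) := by
  have key : ∀ t : ℕ, ((Finset.Ico c (c + t * N)).filter P).card = N.count P * t := by
    intro t
    induction t with
    | zero => simp
    | succ t ih =>
      have h1 : Finset.Ico c (c + (t + 1) * N) =
          Finset.Ico c (c + t * N) ∪ Finset.Ico (c + t * N) (c + t * N + N) := by
        rw [Finset.Ico_union_Ico_eq_Ico (by omega) (by omega)]
        congr 1
        ring
      rw [h1, Finset.filter_union, Finset.card_union_of_disjoint, ih,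
        Nat.filter_Ico_card_eq_of_periodic _ _ _ hP]
      · ring
      · apply Finset.disjoint_filter_filter
        exact Finset.Ico_disjoint_Ico_consecutive _ _ _
  rw [← key]
  apply Finset.card_le_card
  apply Finset.filter_subset_filter
  apply Finset.Ico_subset_Ico_right
  have : d - c < ((d - c) / N + 1) * N := by
    have := Nat.lt_div_mul_add (a := d - c) hN
    linarith [Nat.div_add_mod (d - c) N]
  omega

lemma periodic_lower (P : ℕ → Prop) [DecidablePred P] {N : ℕ} (hN : 0 < N)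
    (hP : Function.Periodic P N) (c d : ℕ) :
    N.count P * ((d - c) / N) ≤ ((Finset.Ico c d).filter P).card := by
  have key : ∀ t : ℕ, ((Finset.Ico c (c + t * N)).filter P).card = N.count P * t := by
    intro t
    induction t with
    | zero => simp
    | succ t ih =>
      have h1 : Finset.Ico c (c + (t + 1) * N) =
          Finset.Ico c (c + t * N) ∪ Finset.Ico (c + t * N) (c + t * N + N) := by
        rw [Finset.Ico_union_Ico_eq_Ico (by omega) (by omega)]
        congr 1
        ring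
      rw [h1, Finset.filter_union, Finset.card_union_of_disjoint, ih,
        Nat.filter_Ico_card_eq_of_periodic _ _ _ hP]
      · ring
      · apply Finset.disjoint_filter_filter
        exact Finset.Ico_disjoint_Ico_consecutive _ _ _
  rcases Nat.eq_zero_or_pos ((d - c) / N) with h | h
  · rw [h]; simp
  rw [← key]
  apply Finset.card_le_card
  apply Finset.filter_subset_filter
  apply Finset.Ico_subset_Ico_right
  have h2 : (d - c) / N * N ≤ d - c := Nat.div_mul_le_self _ _
  have h3 : 0 < (d - c) / N * N := Nat.mul_pos h hN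
  omega

open Nat

/-- slot length in stage `s` -/
def M (s : ℕ) : ℕ := s !

/-- base in stage `s` -/
def b (s : ℕ) : ℕ := ((s + 2)!) ^ (s + 2)

/-- `b s / M s` -/
def p (s : ℕ) : ℕ := b s / M s

/-- start of stage `s` -/
def a (s : ℕ) : ℕ := (b (s + 1)) ^ (4 * s)

lemma M_pos (s : ℕ) : 0 < M s := Nat.factorial_pos s

lemma b_pos (s : ℕ) : 0 < b s := by unfold b; positivity

lemma M_dvd_b' {s t : ℕ} (h : s ≤ t) : M s ∣ b t := by
  unfold M b
  exact (Nat.factorial_dvd_factorial (by omega)).trans (dvd_pow_self _ (by omega))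

lemma M_dvd_b (s : ℕ) : M s ∣ b s := M_dvd_b' le_rfl

lemma sq_le_b (s : ℕ) : ((s + 2)!) ^ 2 ≤ b s := by
  unfold b
  exact Nat.pow_le_pow_right (Nat.factorial_pos _) (by omega)

lemma M_mul_p (s : ℕ) : M s * p s = b s := Nat.mul_div_cancel' (M_dvd_b s)

lemma p_gt (s : ℕ) : s < p s := by
  have h1 : M s * (s + 1) < b s := by
    refine lt_of_lt_of_le ?_ (sq_le_b s)
    unfold M
    have : s ! * (s + 1) = (s + 1)! := by rw [Nat.factorial_succ]; ring
    rw [this]
    have h2 : (s + 2)! = (s + 2) * (s + 1)! := Nat.factorial_succ _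
    have h3 : 0 < (s + 1)! := Nat.factorial_pos _
    have h4 : (s + 1)! < (s + 2)! := by rw [h2]; nlinarith
    nlinarith
  rw [← M_mul_p] at h1
  have := Nat.lt_of_mul_lt_mul_left h1
  omega

lemma p_pos (s : ℕ) : 0 < p s := by have := p_gt s; omega

lemma b_ge (s : ℕ) : s + 2 ≤ b s := by
  refine le_trans ?_ (sq_le_b s)
  have h : s + 2 ≤ (s + 2)! := Nat.self_le_factorial _
  nlinarith [Nat.factorial_pos (s + 2)]

lemma b_mono : Monotone b := by
  intro s t h
  unfold b
  exact (Nat.pow_le_pow_left (Nat.factorial_le (by omega)) _).trans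
    (Nat.pow_le_pow_right (Nat.factorial_pos _) (by omega))

lemma a_zero : a 0 = 1 := by simp [a]

lemma a_strictMono : StrictMono a := by
  apply strictMono_nat_of_lt_succ
  intro s
  unfold a
  have h1 : b (s + 1) ≤ b (s + 1 + 1) := b_mono (by omega)
  have h2 : 1 < b (s + 1 + 1) := by
    have := b_ge (s + 1 + 1)
    omega
  calc (b (s + 1)) ^ (4 * s) ≤ (b (s + 1 + 1)) ^ (4 * s) := Nat.pow_le_pow_left h1 _
    _ < (b (s + 1 + 1)) ^ (4 * (s + 1)) := Nat.pow_lt_pow_right h2 (by omega)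

lemma M_dvd_a (s : ℕ) : M s ∣ a s := by
  rcases Nat.eq_zero_or_pos s with rfl | h
  · simp [M]
  · unfold a
    exact (M_dvd_b' (by omega)).trans (dvd_pow_self _ (by omega))

lemma M_dvd_a_succ (s : ℕ) : M s ∣ a (s + 1) := by
  unfold a
  exact (M_dvd_b' (by omega)).trans (dvd_pow_self _ (by omega))

/-- the stage containing position `i` -/
def stage (i : ℕ) : ℕ := Nat.findGreatest (fun s => a s ≤ i) i

lemma stage_lt (i : ℕ) : i < a (stage i + 1) := by
  by_contra h
  push Not at h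
  have h1 : stage i + 1 ≤ i := (a_strictMono.le_apply).trans h
  have h2 := Nat.le_findGreatest (P := fun s => a s ≤ i) h1 h
  unfold stage at *
  omega

lemma a_stage_le {i : ℕ} (hi : 1 ≤ i) : a (stage i) ≤ i := by
  have h0 : a 0 ≤ i := by rw [a_zero]; exact hi
  exact Nat.findGreatest_spec (P := fun s => a s ≤ i) (Nat.zero_le i) h0

lemma stage_eq {i s : ℕ} (h1 : a s ≤ i) (h2 : i < a (s + 1)) : stage i = s := by
  have hi : 1 ≤ i := by
    have := a_strictMono.monotone (Nat.zero_le s)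
    rw [a_zero] at this
    omega
  have h3 := stage_lt i
  have h4 := a_stage_le hi
  have h5 : s < stage i + 1 := a_strictMono.lt_iff_lt.1 (lt_of_le_of_lt h1 h3)
  have h6 : stage i < s + 1 := a_strictMono.lt_iff_lt.1 (lt_of_le_of_lt h4 h2)
  omega

lemma stage_mono : Monotone stage := by
  intro i j h
  rcases Nat.eq_zero_or_pos i with rfl | hi
  · simp [stage]
  · have h4 := a_stage_le hi
    have h3 := stage_lt j
    have : stage i < stage j + 1 := a_strictMono.lt_iff_lt.1 (by omega)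
    omega

/-- the basic sequence -/
def q (i : ℕ) : ℕ := b (stage i)

/-- mixed radices -/
def rad (s u : ℕ) : ℕ := if u = 0 then p s else b s

def R (s k : ℕ) : ℕ := ∏ v ∈ Finset.range k, rad s v

def letter (s τ u : ℕ) : ℕ := τ / R s u % rad s u

/-- digit at offset `j` of slot `τ` in stage `s` -/
def dig (s τ j : ℕ) : ℕ := if ∀ v ≤ j, letter s τ v < s then letter s τ j else s

/-- the digit sequence -/
def E (i : ℕ) : ℕ := dig (stage i) (i / M (stage i)) (i % M (stage i))

lemma rad_pos (s u : ℕ) : 0 < rad s u := by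
  unfold rad
  split_ifs
  · exact p_pos s
  · exact b_pos s

lemma lt_rad {s u x : ℕ} (h : x < s) : x < rad s u := by
  unfold rad
  split_ifs
  · have := p_gt s; omega
  · have := b_ge s; omega

lemma R_zero (s : ℕ) : R s 0 = 1 := by simp [R]

lemma R_succ (s k : ℕ) : R s (k + 1) = R s k * rad s k := by
  unfold R
  rw [Finset.prod_range_succ]

lemma R_pos (s k : ℕ) : 0 < R s k := Finset.prod_pos (fun v _ => rad_pos s v)

lemma R_dvd (s : ℕ) {k l : ℕ} (h : k ≤ l) : R s k ∣ R s l := by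
  unfold R
  exact Finset.prod_dvd_prod_of_subset _ _ _ (Finset.range_subset_range.2 h)

lemma M_mul_R (s : ℕ) {k : ℕ} (hk : 1 ≤ k) : M s * R s k = b s ^ k := by
  induction k, hk using Nat.le_induction with
  | base => simp [R, rad, M_mul_p]
  | succ k hk ih =>
    rw [R_succ, ← mul_assoc, ih, pow_succ]
    congr 1
    unfold rad
    rw [if_neg (by omega)]

lemma mod_R_succ (s τ k : ℕ) : τ % R s (k + 1) = τ % R s k + R s k * letter s τ k := by
  rw [R_succ, Nat.mod_mul]
  rfl

lemma letter_add (s τ : ℕ) {v k : ℕ} (h : v < k) : letter s (τ + R s k) v = letter s τ v := by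
  obtain ⟨t, ht⟩ := R_dvd s (show v + 1 ≤ k from h)
  rw [ht, R_succ]
  unfold letter
  rw [mul_assoc, Nat.add_mul_div_left _ _ (R_pos s v), Nat.add_mul_mod_self_left]

lemma letters_iff (s τ k : ℕ) (B : ℕ → ℕ) (hB : ∀ u, u < k → B u < s) :
    (∀ u, u < k → letter s τ u = B u) ↔ τ % R s k = ∑ u ∈ Finset.range k, B u * R s u := by
  induction k with
  | zero => simp [R_zero, Nat.mod_one]
  | succ k ih =>
    have ih' := ih (fun u hu => hB u (by omega))
    rw [mod_R_succ, Finset.sum_range_succ]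
    have hlt : ∀ l : ℕ, l ≤ k → ∑ u ∈ Finset.range l, B u * R s u < R s l := by
      intro l hl
      induction l with
      | zero => simp [R_zero]
      | succ l ihl =>
        rw [Finset.sum_range_succ, R_succ]
        have h1 := ihl (by omega)
        have h2 : B l < rad s l := lt_rad (hB l (by omega))
        have h3 : (B l + 1) * R s l ≤ rad s l * R s l := Nat.mul_le_mul_right _ h2
        nlinarith
    constructor
    · intro h
      rw [(ih'.1 (fun u hu => h u (by omega))), h k (by omega)]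
      ring
    · intro h
      have h1 : τ % R s k < R s k := Nat.mod_lt _ (R_pos s k)
      have h2 := hlt k le_rfl
      have h3 : letter s τ k = B k := by
        have e1 : (τ % R s k + R s k * letter s τ k) / R s k = letter s τ k := by
          rw [Nat.add_mul_div_left _ _ (R_pos s k), Nat.div_eq_of_lt h1, zero_add]
        have e2 : (∑ u ∈ Finset.range k, B u * R s u + B k * R s k) / R s k = B k := by
          rw [Nat.add_mul_div_right _ _ (R_pos s k), Nat.div_eq_of_lt h2, zero_add]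
        rw [← e1, h, e2]
      have h4 : τ % R s k = ∑ u ∈ Finset.range k, B u * R s u := by
        rw [h3] at h
        have : R s k * B k = B k * R s k := by ring
        omega
      intro u hu
      rcases Nat.lt_succ_iff_lt_or_eq.1 hu with h5 | h5
      · exact ih'.2 h4 u h5
      · rw [h5]; exact h3

lemma sum_lt_R (s k : ℕ) (B : ℕ → ℕ) (hB : ∀ u, u < k → B u < s) :
    ∑ u ∈ Finset.range k, B u * R s u < R s k := by
  induction k with
  | zero => simp [R_zero]
  | succ l ihl =>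
    rw [Finset.sum_range_succ, R_succ]
    have h1 := ihl (fun u hu => hB u (by omega))
    have h2 : B l < rad s l := lt_rad (hB l (by omega))
    have h3 : (B l + 1) * R s l ≤ rad s l * R s l := Nat.mul_le_mul_right _ h2
    nlinarith

lemma dig_eq_iff {s τ j c : ℕ} (hc : c < s) :
    dig s τ j = c ↔ (∀ v ≤ j, letter s τ v < s) ∧ letter s τ j = c := by
  unfold dig
  constructor
  · intro h
    split_ifs at h with h1
    · exact ⟨h1, h⟩
    · omega
  · rintro ⟨h1, h2⟩
    rw [if_pos h1, h2]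

lemma dig_le (s τ j : ℕ) : dig s τ j ≤ s := by
  unfold dig
  split_ifs with h
  · exact (h j le_rfl).le
  · exact le_rfl

/-- the number of `i` in a full period for slot starts -/
lemma count_start (s k c : ℕ) (hk : 1 ≤ k) (hc : c < R s k) :
    (b s ^ k).count (fun i => M s ∣ i ∧ i / M s % R s k = c) = 1 := by
  rw [Nat.count_eq_card_filter_range, Finset.card_eq_one]
  refine ⟨M s * c, ?_⟩
  ext i
  simp only [Finset.mem_filter, Finset.mem_range, Finset.mem_singleton]
  rw [← M_mul_R s hk]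
  constructor
  · rintro ⟨h1, ⟨t, rfl⟩, h3⟩
    rw [Nat.mul_div_cancel_left _ (M_pos s)] at h3
    have h4 : t < R s k := Nat.lt_of_mul_lt_mul_left h1
    rw [Nat.mod_eq_of_lt h4] at h3
    rw [h3]
  · rintro rfl
    refine ⟨Nat.mul_lt_mul_of_pos_left hc (M_pos s), dvd_mul_right _ _, ?_⟩
    rw [Nat.mul_div_cancel_left _ (M_pos s), Nat.mod_eq_of_lt hc]

lemma periodic_start (s k c : ℕ) (hk : 1 ≤ k) :
    Function.Periodic (fun i => M s ∣ i ∧ i / M s % R s k = c) (b s ^ k) := by
  intro i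
  simp only
  rw [← M_mul_R s hk, Nat.add_mul_div_left _ _ (M_pos s), Nat.add_mod_right]
  have : M s ∣ i + M s * R s k ↔ M s ∣ i := by
    rw [Nat.dvd_add_left (dvd_mul_right _ _)]
  rw [this]

lemma card_small (s k : ℕ) :
    ((Finset.range (R s k)).filter (fun τ => ∀ v < k, letter s τ v < s)).card ≤ s ^ k := by
  induction k with
  | zero => simp [R_zero]
  | succ k ih =>
    have : ((Finset.range (R s (k + 1))).filter (fun τ => ∀ v < k + 1, letter s τ v < s)).card ≤
        (((Finset.range (R s k)).filter (fun τ => ∀ v < k, letter s τ v < s)) ×ˢ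
          Finset.range s).card := by
      apply Finset.card_le_card_of_injOn (fun τ => (τ % R s k, τ / R s k))
      · intro τ hτ
        simp only [Finset.coe_filter, Finset.mem_range, Set.mem_ofPred_eq] at hτ
        obtain ⟨h1, h2⟩ := hτ
        simp only [Finset.coe_product, Set.mem_prod, Finset.coe_filter, Set.mem_ofPred_eq,
          Finset.mem_range, Finset.coe_range, Set.mem_Iio]
        refine ⟨⟨Nat.mod_lt _ (R_pos s k), ?_⟩, ?_⟩
        · intro v hv
          have h3 := h2 v (by omega)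
          have h4 : letter s (τ % R s k) v = letter s τ v := by
            have e : ∀ t x : ℕ, letter s (x + R s k * t) v = letter s x v := by
              intro t x
              induction t with
              | zero => simp
              | succ t iht =>
                rw [mul_add, mul_one, ← add_assoc, letter_add s _ hv, iht]
            have := e (τ / R s k) (τ % R s k)
            rw [Nat.mod_add_div] at this
            exact this.symm
          rw [h4]
          exact h3
        · have h3 := h2 k (by omega)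
          unfold letter at h3
          rw [R_succ] at h1
          rwa [Nat.mod_eq_of_lt (Nat.div_lt_of_lt_mul h1)] at h3
      · intro x _ y _ hxy
        simp only [Prod.mk.injEq] at hxy
        rw [← Nat.mod_add_div x (R s k), ← Nat.mod_add_div y (R s k), hxy.1, hxy.2]
    refine this.trans ?_
    rw [Finset.card_product, Finset.card_range, pow_succ]
    exact Nat.mul_le_mul_right _ ih

lemma count_small (s k : ℕ) (hk : 1 ≤ k) :
    (b s ^ k).count (fun i => ∀ v < k, letter s (i / M s) v < s) ≤ M s * s ^ k := by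
  rw [Nat.count_eq_card_filter_range]
  have : ((Finset.range (b s ^ k)).filter (fun i => ∀ v < k, letter s (i / M s) v < s)).card ≤
      (Finset.range (M s) ×ˢ
        ((Finset.range (R s k)).filter (fun τ => ∀ v < k, letter s τ v < s))).card := by
    apply Finset.card_le_card_of_injOn (fun i => (i % M s, i / M s))
    · intro i hi
      simp only [Finset.coe_filter, Finset.mem_range, Set.mem_ofPred_eq] at hi
      obtain ⟨h1, h2⟩ := hi
      simp only [Finset.coe_product, Set.mem_prod, Finset.coe_filter, Set.mem_ofPred_eq,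
          Finset.mem_range, Finset.coe_range, Set.mem_Iio]
      rw [← M_mul_R s hk] at h1
      exact ⟨Nat.mod_lt _ (M_pos s), Nat.div_lt_of_lt_mul h1, h2⟩
    · intro x _ y _ hxy
      simp only [Prod.mk.injEq] at hxy
      rw [← Nat.mod_add_div x (M s), ← Nat.mod_add_div y (M s), hxy.1, hxy.2]
  refine this.trans ?_
  rw [Finset.card_product, Finset.card_range]
  exact Nat.mul_le_mul_left _ (card_small s k)

lemma periodic_small (s k : ℕ) (hk : 1 ≤ k) :
    Function.Periodic (fun i => ∀ v < k, letter s (i / M s) v < s) (b s ^ k) := by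
  intro i
  simp only
  rw [← M_mul_R s hk, Nat.add_mul_div_left _ _ (M_pos s)]
  apply propext
  constructor
  · intro h v hv
    have := h v hv
    rwa [letter_add s _ hv] at this
  · intro h v hv
    rw [letter_add s _ hv]
    exact h v hv


/-- occurrence of a block, the block given as a function on `ℕ` -/
def occ (k : ℕ) (B : ℕ → ℕ) (i : ℕ) : Prop := ∀ u, u < k → E (i + u) = B u

lemma slot_end {s i : ℕ} (h2 : i < a (s + 1)) (hM : M s ∣ i) : i + M s ≤ a (s + 1) := by
  obtain ⟨x, rfl⟩ := hM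
  obtain ⟨y, hy⟩ := M_dvd_a_succ s
  rw [hy] at h2 ⊢
  have : x < y := Nat.lt_of_mul_lt_mul_left h2
  calc M s * x + M s = M s * (x + 1) := by ring
    _ ≤ M s * y := Nat.mul_le_mul_left _ this

lemma slot_start {s i : ℕ} (h1 : a s ≤ i) : a s ≤ i / M s * M s := by
  obtain ⟨x, hx⟩ := M_dvd_a s
  rw [hx, mul_comm (M s) x]
  apply Nat.mul_le_mul_right
  rw [Nat.le_div_iff_mul_le (M_pos s), mul_comm x, ← hx]
  exact h1

/-- digits inside a slot -/
lemma E_slot {s i : ℕ} (h1 : a s ≤ i) (h2 : i < a (s + 1)) {j : ℕ} (hj : j < M s) :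
    E (i / M s * M s + j) = dig s (i / M s) j := by
  have h3 := slot_start h1
  have h4 : i / M s * M s < a (s + 1) := lt_of_le_of_lt (Nat.div_mul_le_self _ _) h2
  have h5 := slot_end h4 (dvd_mul_left _ _)
  have h6 : stage (i / M s * M s + j) = s := stage_eq (by omega) (by omega)
  unfold E
  rw [h6]
  congr 1
  · rw [mul_comm, Nat.mul_add_div (M_pos s), Nat.div_eq_of_lt hj, add_zero]
  · rw [mul_comm, Nat.mul_add_mod, Nat.mod_eq_of_lt hj]

lemma occ_start {s k : ℕ} {B : ℕ → ℕ} (hB : ∀ u, u < k → B u < s) (hkM : k ≤ M s)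
    {i : ℕ} (h1 : a s ≤ i) (h2 : i < a (s + 1)) (hM : M s ∣ i) :
    occ k B i ↔ i / M s % R s k = ∑ u ∈ Finset.range k, B u * R s u := by
  rw [← letters_iff s _ k B hB]
  have e : i / M s * M s = i := Nat.div_mul_cancel hM
  unfold occ
  constructor
  · intro h u hu
    have h3 := h u hu
    have h4 := E_slot h1 h2 (show u < M s by omega)
    rw [e, h3] at h4
    exact ((dig_eq_iff (hB u hu)).1 h4.symm).2
  · intro h u hu
    have h4 := E_slot h1 h2 (show u < M s by omega)
    rw [e] at h4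
    rw [h4, dig_eq_iff (hB u hu)]
    refine ⟨fun v hv => ?_, h u hu⟩
    rw [h v (by omega)]
    exact hB v (by omega)

lemma occ_off {s k : ℕ} {B : ℕ → ℕ} (hk : 1 ≤ k) (hB : ∀ u, u < k → B u < s) (hkM : 2 * k ≤ M s)
    {i : ℕ} (h1 : a s ≤ i) (h2 : i < a (s + 1)) (hM : ¬ M s ∣ i) (h : occ k B i) :
    ∀ v < k + 1, letter s (i / M s) v < s := by
  have hj : 0 < i % M s := Nat.pos_of_ne_zero (fun h => hM (Nat.dvd_of_mod_eq_zero h))
  have hj' : i % M s < M s := Nat.mod_lt _ (M_pos s)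
  have e : i / M s * M s + i % M s = i := Nat.div_add_mod' i (M s)
  by_cases hc : k ≤ i % M s
  · have h4 := E_slot h1 h2 hj'
    rw [e] at h4
    have h5 := h 0 (by omega)
    rw [add_zero, h4, dig_eq_iff (hB 0 (by omega))] at h5
    intro v hv
    exact h5.1 v (by omega)
  · have h4 := E_slot h1 h2 (show i % M s + (k - 1) < M s by omega)
    rw [← add_assoc, e] at h4
    have h5 := h (k - 1) (by omega)
    rw [h4, dig_eq_iff (hB (k - 1) (by omega))] at h5
    intro v hv
    exact h5.1 v (by omega)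

open Classical in
/-- occurrences at slot starts in `[c, d)` -/
noncomputable def cA (k : ℕ) (B : ℕ → ℕ) (c d : ℕ) : ℕ :=
  ((Finset.Ico c d).filter (fun i => M (stage i) ∣ i ∧ occ k B i)).card

open Classical in
/-- occurrences off slot starts in `[c, d)` -/
noncomputable def cO (k : ℕ) (B : ℕ → ℕ) (c d : ℕ) : ℕ :=
  ((Finset.Ico c d).filter (fun i => ¬ M (stage i) ∣ i ∧ occ k B i)).card

lemma cA_stage {s k : ℕ} {B : ℕ → ℕ} (hk : 1 ≤ k) (hB : ∀ u, u < k → B u < s) (hkM : k ≤ M s)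
    {c d : ℕ} (h1 : a s ≤ c) (h2 : d ≤ a (s + 1)) :
    (d - c) / b s ^ k ≤ cA k B c d ∧ cA k B c d ≤ (d - c) / b s ^ k + 1 := by
  classical
  have e : cA k B c d = ((Finset.Ico c d).filter
      (fun i => M s ∣ i ∧ i / M s % R s k = ∑ u ∈ Finset.range k, B u * R s u)).card := by
    unfold cA
    congr 1
    apply Finset.filter_congr
    intro i hi
    rw [Finset.mem_Ico] at hi
    have h3 : stage i = s := stage_eq (by omega) (by omega)
    rw [h3]
    constructor
    · rintro ⟨h4, h5⟩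
      exact ⟨h4, (occ_start hB hkM (by omega) (by omega) h4).1 h5⟩
    · rintro ⟨h4, h5⟩
      exact ⟨h4, (occ_start hB hkM (by omega) (by omega) h4).2 h5⟩
  have hN : 0 < b s ^ k := by have := b_pos s; positivity
  have hc := count_start s k _ hk (sum_lt_R s k B hB)
  have hp := periodic_start s k (∑ u ∈ Finset.range k, B u * R s u) hk
  have hu := periodic_upper _ hN hp c d
  have hl := periodic_lower _ hN hp c d
  rw [hc] at hu hl
  rw [e]
  constructor
  · rw [one_mul] at hl; exact hl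
  · rw [one_mul] at hu; exact hu

lemma cO_stage {s k : ℕ} {B : ℕ → ℕ} (hk : 1 ≤ k) (hB : ∀ u, u < k → B u < s)
    (hkM : 2 * k ≤ M s) {c d : ℕ} (h1 : a s ≤ c) (h2 : d ≤ a (s + 1)) :
    cO k B c d ≤ M s * s ^ (k + 1) * ((d - c) / b s ^ (k + 1) + 1) := by
  classical
  have e : cO k B c d ≤ ((Finset.Ico c d).filter
      (fun i => ∀ v < k + 1, letter s (i / M s) v < s)).card := by
    unfold cO
    apply Finset.card_le_card
    intro i hi
    rw [Finset.mem_filter, Finset.mem_Ico] at hi ⊢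
    obtain ⟨hi, h4, h5⟩ := hi
    have h3 : stage i = s := stage_eq (by omega) (by omega)
    rw [h3] at h4
    exact ⟨hi, occ_off hk hB hkM (by omega) (by omega) h4 h5⟩
  have hN : 0 < b s ^ (k + 1) := by have := b_pos s; positivity
  have hc := count_small s (k + 1) (by omega)
  have hp := periodic_small s (k + 1) (by omega)
  have hu := periodic_upper _ hN hp c d
  exact e.trans (hu.trans (Nat.mul_le_mul_right _ hc))

noncomputable def W (k c d : ℕ) : ℝ := ∑ j ∈ Finset.Ico c d, wt q k j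

lemma bR_pos (s : ℕ) : (0 : ℝ) < b s := by exact_mod_cast b_pos s

lemma q_ge_one (i : ℕ) : (1 : ℝ) ≤ q i := by
  have := b_ge (stage i)
  unfold q
  exact_mod_cast (by omega : 1 ≤ b (stage i))

lemma q_pos (i : ℕ) : (0 : ℝ) < q i := lt_of_lt_of_le one_pos (q_ge_one i)

lemma q_mono : Monotone q := fun _ _ h => b_mono (stage_mono h)

lemma wt_nonneg (k j : ℕ) : 0 ≤ wt q k j := by
  unfold wt
  have : 0 < ∏ t ∈ Finset.range k, (q (j + t) : ℝ) := Finset.prod_pos (fun t _ => q_pos _)
  positivity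

lemma wt_le_one (k j : ℕ) : wt q k j ≤ 1 := by
  unfold wt
  have : ∏ t ∈ Finset.range k, (1 : ℝ) ≤ ∏ t ∈ Finset.range k, (q (j + t) : ℝ) :=
    Finset.prod_le_prod (fun _ _ => zero_le_one) (fun t _ => q_ge_one _)
  rw [Finset.prod_const_one] at this
  rw [div_le_one (by linarith)]
  exact this

lemma wt_anti (k j : ℕ) : wt q k (j + 1) ≤ wt q k j := by
  unfold wt
  apply one_div_le_one_div_of_le (Finset.prod_pos (fun t _ => q_pos _))
  apply Finset.prod_le_prod (fun t _ => (q_pos _).le)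
  intro t _
  exact_mod_cast q_mono (by omega)

lemma wt_le_stage {s i : ℕ} (k : ℕ) (h1 : a s ≤ i) : wt q k i ≤ 1 / (b s : ℝ) ^ k := by
  unfold wt
  apply one_div_le_one_div_of_le (by have := bR_pos s; positivity)
  rw [← Finset.card_range k, ← Finset.prod_const, Finset.card_range]
  apply Finset.prod_le_prod (fun t _ => (bR_pos s).le)
  intro t _
  unfold q
  have hi : 1 ≤ a s := by
    have := a_strictMono.monotone (Nat.zero_le s)
    rw [a_zero] at this
    exact this
  have : s ≤ stage (i + t) := by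
    have h3 := stage_lt (i + t)
    have h5 : s < stage (i + t) + 1 := a_strictMono.lt_iff_lt.1 (by omega)
    omega
  exact_mod_cast b_mono this

lemma wt_ge_stage {s i : ℕ} (k : ℕ) (h1 : i + k ≤ a (s + 1)) : 1 / (b s : ℝ) ^ k ≤ wt q k i := by
  unfold wt
  apply one_div_le_one_div_of_le (Finset.prod_pos (fun t _ => q_pos _))
  rw [← Finset.card_range k, ← Finset.prod_const, Finset.card_range]
  apply Finset.prod_le_prod (fun t _ => (q_pos _).le)
  intro t ht
  rw [Finset.mem_range] at ht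
  unfold q
  have : stage (i + t) ≤ s := by
    rcases Nat.eq_zero_or_pos (i + t) with h | h
    · rw [h]; simp [stage]
    · have h3 := a_stage_le h
      have h5 : stage (i + t) < s + 1 := a_strictMono.lt_iff_lt.1 (by omega)
      omega
  exact_mod_cast b_mono this

lemma W_upper {s c : ℕ} (k : ℕ) {d : ℕ} (h1 : a s ≤ c) (hcd : c ≤ d) :
    W k c d ≤ ((d : ℝ) - c) / (b s : ℝ) ^ k := by
  unfold W
  have : ∑ j ∈ Finset.Ico c d, wt q k j ≤ ∑ j ∈ Finset.Ico c d, 1 / (b s : ℝ) ^ k := by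
    apply Finset.sum_le_sum
    intro i hi
    rw [Finset.mem_Ico] at hi
    exact wt_le_stage k (by omega)
  refine this.trans ?_
  rw [Finset.sum_const, Nat.card_Ico, nsmul_eq_mul, Nat.cast_sub hcd]
  apply le_of_eq
  ring

lemma W_lower {s c : ℕ} (k : ℕ) {d : ℕ} (h2 : d ≤ a (s + 1)) :
    ((d : ℝ) - c - k) / (b s : ℝ) ^ k ≤ W k c d := by
  have hb : (0 : ℝ) < (b s : ℝ) ^ k := by have := bR_pos s; positivity
  by_cases h : c + k ≤ d
  · have h3 : ∑ j ∈ Finset.Ico c (d - k), 1 / (b s : ℝ) ^ k ≤ ∑ j ∈ Finset.Ico c (d - k), wt q k j := by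
      apply Finset.sum_le_sum
      intro i hi
      rw [Finset.mem_Ico] at hi
      exact wt_ge_stage k (by omega)
    have h4 : ∑ j ∈ Finset.Ico c (d - k), wt q k j ≤ W k c d := by
      apply Finset.sum_le_sum_of_subset_of_nonneg
      · exact Finset.Ico_subset_Ico_right (by omega)
      · intro i _ _
        exact wt_nonneg k i
    refine le_trans ?_ (h3.trans h4)
    rw [Finset.sum_const, Nat.card_Ico, nsmul_eq_mul, Nat.cast_sub (by omega), Nat.cast_sub (by omega)]
    apply le_of_eq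
    ring
  · have h3 : 0 ≤ W k c d := Finset.sum_nonneg (fun i _ => wt_nonneg k i)
    refine le_trans ?_ h3
    apply div_nonpos_of_nonpos_of_nonneg _ hb.le
    have : ((d : ℕ) : ℝ) ≤ ((c + k : ℕ) : ℝ) := by exact_mod_cast (by omega)
    push_cast at this
    linarith

/-- summation over the stages -/
lemma stage_induction {f g : ℕ → ℝ} {s0 : ℕ}
    (h : ∀ s, s0 ≤ s → ∀ c d, a s ≤ c → c ≤ d → d ≤ a (s + 1) → f d - f c ≤ g s)
    {n : ℕ} (hn : a s0 ≤ n) :
    f n ≤ f (a s0) + ∑ t ∈ Finset.Icc s0 (stage n), g t := by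
  have ha : ∀ s, s0 ≤ s → f (a s) ≤ f (a s0) + ∑ t ∈ Finset.Ico s0 s, g t := by
    intro s hs
    induction s, hs using Nat.le_induction with
    | base => simp
    | succ s hs ih =>
      rw [Finset.sum_Ico_succ_top hs]
      have := h s hs (a s) (a (s + 1)) le_rfl (a_strictMono.monotone (by omega)) le_rfl
      linarith
  have hpos : 1 ≤ a s0 := by
    have := a_strictMono.monotone (Nat.zero_le s0)
    rw [a_zero] at this
    exact this
  have hs : s0 ≤ stage n := by
    have h3 := stage_lt n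
    have h5 : s0 < stage n + 1 := a_strictMono.lt_iff_lt.1 (by omega)
    omega
  have h1 := ha (stage n) hs
  have h2 := h (stage n) hs (a (stage n)) n le_rfl (a_stage_le (by omega)) (stage_lt n).le
  have h3 : Finset.Icc s0 (stage n) = Finset.Ico s0 (stage n + 1) := by
    ext x; simp only [Finset.mem_Icc, Finset.mem_Ico]; omega
  rw [h3, Finset.sum_Ico_succ_top hs]
  linarith


lemma W_nonneg (k c d : ℕ) : 0 ≤ W k c d := Finset.sum_nonneg (fun i _ => wt_nonneg k i)

lemma W_add (k : ℕ) {c d e : ℕ} (h1 : c ≤ d) (h2 : d ≤ e) : W k c e = W k c d + W k d e := by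
  unfold W
  rw [Finset.sum_Ico_consecutive _ h1 h2]

lemma cA_add (k : ℕ) (B : ℕ → ℕ) {c d e : ℕ} (h1 : c ≤ d) (h2 : d ≤ e) :
    cA k B c e = cA k B c d + cA k B d e := by
  classical
  unfold cA
  rw [← Finset.Ico_union_Ico_eq_Ico h1 h2, Finset.filter_union, Finset.card_union_of_disjoint]
  apply Finset.disjoint_filter_filter
  exact Finset.Ico_disjoint_Ico_consecutive _ _ _

lemma cO_add (k : ℕ) (B : ℕ → ℕ) {c d e : ℕ} (h1 : c ≤ d) (h2 : d ≤ e) :
    cO k B c e = cO k B c d + cO k B d e := by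
  classical
  unfold cO
  rw [← Finset.Ico_union_Ico_eq_Ico h1 h2, Finset.filter_union, Finset.card_union_of_disjoint]
  apply Finset.disjoint_filter_filter
  exact Finset.Ico_disjoint_Ico_consecutive _ _ _

lemma le_stage {s n : ℕ} (h : a s ≤ n) : s ≤ stage n := by
  have h3 := stage_lt n
  have h5 : s < stage n + 1 := a_strictMono.lt_iff_lt.1 (by omega)
  omega

lemma tendsto_stage : Tendsto stage atTop atTop :=
  tendsto_atTop_atTop.2 (fun s => ⟨a s, fun _ hn => le_stage hn⟩)

lemma one_le_a (s : ℕ) : 1 ≤ a s := by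
  have := a_strictMono.monotone (Nat.zero_le s)
  rw [a_zero] at this
  exact this

lemma M_mono : Monotone M := fun _ _ h => Nat.factorial_le h

/-- the weights grow much faster than everything else -/
lemma growth (k K : ℕ) {n : ℕ} (h1 : k + 2 ≤ stage n) (h2 : K ≤ stage n) :
    ((stage n * ((stage n + 1) * (M (stage n) * stage n ^ (k + 1) + K)) : ℕ) : ℝ) ≤ W k 1 n := by
  set s := stage n with hs
  have hn : 1 ≤ n := by
    by_contra h
    have : n = 0 := by omega
    subst this
    have : stage 0 = 0 := by simp [stage]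
    omega
  set Z := b (s + 1) with hZ
  have hsZ : s + 3 ≤ Z := by have := b_ge (s + 1); omega
  have hMZ : M s ≤ Z := Nat.le_of_dvd (b_pos _) (M_dvd_b' (by omega))
  have hZ0 : 0 < Z := by omega
  have hnat : s * ((s + 1) * (M s * s ^ (k + 1) + K)) * Z ^ k ≤ n - 1 := by
    have e1 : M s * s ^ (k + 1) ≤ Z * Z ^ (k + 1) :=
      Nat.mul_le_mul hMZ (Nat.pow_le_pow_left (by omega) _)
    have e2 : M s * s ^ (k + 1) + K ≤ Z ^ (k + 3) := by
      have : K ≤ Z * Z ^ (k + 1) := by
        calc K ≤ Z := by omega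
          _ = Z * 1 := by ring
          _ ≤ Z * Z ^ (k + 1) := Nat.mul_le_mul_left _ (Nat.one_le_pow _ _ hZ0)
      calc M s * s ^ (k + 1) + K ≤ 2 * (Z * Z ^ (k + 1)) := by omega
        _ ≤ Z * (Z * Z ^ (k + 1)) := Nat.mul_le_mul_right _ (by omega)
        _ = Z ^ (k + 3) := by ring
    have e3 : s * ((s + 1) * (M s * s ^ (k + 1) + K)) * Z ^ k ≤ Z ^ (2 * k + 5) := by
      calc s * ((s + 1) * (M s * s ^ (k + 1) + K)) * Z ^ k
          ≤ Z * (Z * Z ^ (k + 3)) * Z ^ k := by
            apply Nat.mul_le_mul_right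
            exact Nat.mul_le_mul (by omega) (Nat.mul_le_mul (by omega) e2)
        _ = Z ^ (2 * k + 5) := by ring
    have e4 : Z ^ (2 * k + 5) < Z ^ (4 * s) := Nat.pow_lt_pow_right (by omega) (by omega)
    have e5 : Z ^ (4 * s) ≤ n := by
      have := a_stage_le hn
      unfold a at this
      exact this
    omega
  have hW : ((n : ℝ) - 1) / (Z : ℝ) ^ k ≤ W k 1 n := by
    unfold W
    have : ∑ j ∈ Finset.Ico 1 n, 1 / (Z : ℝ) ^ k ≤ ∑ j ∈ Finset.Ico 1 n, wt q k j := by
      apply Finset.sum_le_sum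
      intro i hi
      rw [Finset.mem_Ico] at hi
      apply wt_ge_stage
      have f1 : n < a (s + 1) := stage_lt n
      have f2 : 2 * a (s + 1) ≤ a (s + 1 + 1) := by
        unfold a
        have g1 : b (s + 1 + 1) ≤ b (s + 1 + 1 + 1) := b_mono (by omega)
        have g2 : 2 ≤ b (s + 1 + 1) := by have := b_ge (s + 1 + 1); omega
        calc 2 * b (s + 1 + 1) ^ (4 * (s + 1)) ≤ b (s + 1 + 1) ^ 4 * b (s + 1 + 1) ^ (4 * (s + 1)) := by
              apply Nat.mul_le_mul_right
              calc 2 ≤ b (s + 1 + 1) := g2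
                _ = b (s + 1 + 1) ^ 1 := by ring
                _ ≤ b (s + 1 + 1) ^ 4 := Nat.pow_le_pow_right (by omega) (by omega)
          _ = b (s + 1 + 1) ^ (4 * (s + 1 + 1)) := by rw [← pow_add]; congr 1; ring
          _ ≤ b (s + 1 + 1 + 1) ^ (4 * (s + 1 + 1)) := Nat.pow_le_pow_left g1 _
      have f3 : s + 1 ≤ a (s + 1) := a_strictMono.le_apply
      omega
    rw [Finset.sum_const, Nat.card_Ico, nsmul_eq_mul, Nat.cast_sub hn] at this
    refine le_trans (le_of_eq ?_) this
    push_cast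
    ring
  refine le_trans ?_ hW
  have hZR : (0 : ℝ) < (Z : ℝ) ^ k := by positivity
  rw [le_div_iff₀ hZR]
  have : ((s * ((s + 1) * (M s * s ^ (k + 1) + K)) * Z ^ k : ℕ) : ℝ) ≤ ((n - 1 : ℕ) : ℝ) := by
    exact_mod_cast hnat
  rw [Nat.cast_sub hn] at this
  push_cast at this ⊢
  exact this

lemma tendsto_W (k : ℕ) : Tendsto (fun n => W k 1 n) atTop atTop := by
  have h1 : Tendsto (fun n => ((stage n : ℕ) : ℝ)) atTop atTop :=
    tendsto_natCast_atTop_atTop.comp tendsto_stage
  apply tendsto_atTop_mono' _ _ h1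
  filter_upwards [tendsto_stage.eventually_ge_atTop (k + 2)] with n hn
  have := growth k 1 hn (by omega)
  refine le_trans ?_ this
  have h2 : stage n ≤ stage n * ((stage n + 1) * (M (stage n) * stage n ^ (k + 1) + 1)) := by
    apply Nat.le_mul_of_pos_right
    positivity
  exact_mod_cast h2

lemma small_err (k K : ℕ) (C : ℝ) {ε : ℝ} (hε : 0 < ε) :
    ∀ᶠ n in atTop, C + (((stage n + 1) * (M (stage n) * stage n ^ (k + 1) + K) : ℕ) : ℝ)
      ≤ ε * W k 1 n := by
  have h1 : ∀ᶠ n in atTop, 2 * |C| / ε ≤ W k 1 n := (tendsto_W k).eventually_ge_atTop _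
  obtain ⟨N, hN⟩ := exists_nat_gt (2 / ε)
  filter_upwards [tendsto_stage.eventually_ge_atTop (k + 2 + K + N), h1] with n hn hn1
  have h2 := growth k K (n := n) (by omega) (by omega)
  have h3 : (N : ℝ) ≤ stage n := by exact_mod_cast (by omega : N ≤ stage n)
  have h4 : C ≤ ε / 2 * W k 1 n := by
    have : 2 * |C| ≤ W k 1 n * ε := by rwa [div_le_iff₀ hε] at hn1
    have := le_abs_self C
    linarith
  have h5 : (((stage n + 1) * (M (stage n) * stage n ^ (k + 1) + K) : ℕ) : ℝ)
      ≤ ε / 2 * W k 1 n := by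
    set X : ℝ := (((stage n + 1) * (M (stage n) * stage n ^ (k + 1) + K) : ℕ) : ℝ) with hX
    have hX0 : 0 ≤ X := by positivity
    have h6 : (stage n : ℝ) * X ≤ W k 1 n := by
      rw [hX]
      exact_mod_cast h2
    have h7 : 2 / ε * X ≤ W k 1 n := by
      refine le_trans ?_ h6
      apply mul_le_mul_of_nonneg_right _ hX0
      linarith
    have h8 : ε / 2 * (2 / ε * X) = X := by field_simp
    rw [← h8]
    apply mul_le_mul_of_nonneg_left h7 (by positivity)
  linarith

lemma sum_stage_le {G : ℕ → ℝ} (hG0 : ∀ t, 0 ≤ G t) (hG : Monotone G) (s0 s : ℕ) :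
    ∑ t ∈ Finset.Icc s0 s, G t ≤ (s + 1) * G s := by
  have h1 : ∑ t ∈ Finset.Icc s0 s, G t ≤ ∑ t ∈ Finset.Icc s0 s, G s := by
    apply Finset.sum_le_sum
    intro t ht
    rw [Finset.mem_Icc] at ht
    exact hG ht.2
  rw [Finset.sum_const, Nat.card_Icc, nsmul_eq_mul] at h1
  refine h1.trans ?_
  apply mul_le_mul_of_nonneg_right _ (hG0 s)
  have : s + 1 - s0 ≤ s + 1 := by omega
  exact_mod_cast this

/-- all blocks fit eventually -/
lemma exists_s0 (k : ℕ) (B : ℕ → ℕ) :
    ∃ s0, ∀ s, s0 ≤ s → (∀ u, u < k → B u < s) ∧ 2 * k ≤ M s := by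
  refine ⟨(∑ u ∈ Finset.range k, B u) + 2 * k + 1, fun s hs => ⟨fun u hu => ?_, ?_⟩⟩
  · have : B u ≤ ∑ u ∈ Finset.range k, B u :=
      Finset.single_le_sum (fun _ _ => Nat.zero_le _) (Finset.mem_range.2 hu)
    omega
  · have : s ≤ M s := Nat.self_le_factorial s
    omega

lemma GM_mono (k K : ℕ) : Monotone (fun t : ℕ => ((M t * t ^ (k + 1) + K : ℕ) : ℝ)) := by
  intro x y h
  have h1 : M x ≤ M y := M_mono h
  have h2 : x ^ (k + 1) ≤ y ^ (k + 1) := Nat.pow_le_pow_left h _
  have h3 : M x * x ^ (k + 1) + K ≤ M y * y ^ (k + 1) + K := by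
    have := Nat.mul_le_mul h1 h2
    omega
  simp only
  exact_mod_cast h3

lemma A_bound {k : ℕ} (hk : 1 ≤ k) (B : ℕ → ℕ) {ε : ℝ} (hε : 0 < ε) :
    ∀ᶠ n in atTop, |(cA k B 1 n : ℝ) - W k 1 n| ≤ ε * W k 1 n := by
  obtain ⟨s0, hs0⟩ := exists_s0 k B
  have key : ∀ s, s0 ≤ s → ∀ c d, a s ≤ c → c ≤ d → d ≤ a (s + 1) →
      |((cA k B 1 d : ℝ) - W k 1 d) - ((cA k B 1 c : ℝ) - W k 1 c)| ≤ k + 1 := by
    intro s hs c d h1 h2 h3
    obtain ⟨hB, hkM⟩ := hs0 s hs
    have hc1 : 1 ≤ c := (one_le_a s).trans h1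
    rw [cA_add k B hc1 h2, W_add k hc1 h2]
    obtain ⟨h4, h5⟩ := cA_stage hk hB (by omega) h1 h3
    have hb1 : (1 : ℝ) ≤ (b s : ℝ) ^ k := by
      apply one_le_pow₀
      exact_mod_cast b_pos s
    have hb : (0 : ℝ) < (b s : ℝ) ^ k := by linarith
    have h6 := W_upper k h1 h2
    have h7 := W_lower (c := c) k h3
    have h8 : (((d - c) / b s ^ k : ℕ) : ℝ) ≤ ((d : ℝ) - c) / (b s : ℝ) ^ k := by
      have := @Nat.cast_div_le ℝ _ _ _ (d - c) (b s ^ k)
      rw [Nat.cast_sub h2] at this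
      push_cast at this ⊢
      exact this
    have h9 : ((d : ℝ) - c) / (b s : ℝ) ^ k ≤ (((d - c) / b s ^ k : ℕ) : ℝ) + 1 := by
      rw [div_le_iff₀ hb]
      have : d - c < (b s ^ k) * ((d - c) / b s ^ k) + b s ^ k := by
        have := Nat.lt_mul_div_succ (d - c) (b := b s ^ k) (by have := b_pos s; positivity)
        rw [mul_add, mul_one] at this
        exact this
      have h10 : ((d - c : ℕ) : ℝ) < ((b s ^ k * ((d - c) / b s ^ k) + b s ^ k : ℕ) : ℝ) := by
        exact_mod_cast this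
      rw [Nat.cast_sub h2] at h10
      push_cast at h10 ⊢
      nlinarith
    have h10 : (((d - c) / b s ^ k : ℕ) : ℝ) ≤ cA k B c d := by exact_mod_cast h4
    have h11 : (cA k B c d : ℝ) ≤ (((d - c) / b s ^ k : ℕ) : ℝ) + 1 := by exact_mod_cast h5
    have h12 : (k : ℝ) / (b s : ℝ) ^ k ≤ k := div_le_self (by positivity) hb1
    have h13 : ((d : ℝ) - c - k) / (b s : ℝ) ^ k = ((d : ℝ) - c) / (b s : ℝ) ^ k - k / (b s : ℝ) ^ k := by
      ring
    rw [h13] at h7
    push_cast
    have hk0 : (0 : ℝ) ≤ k := by positivity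
    rw [abs_le]
    constructor <;> linarith
  set C : ℝ := |(cA k B 1 (a s0) : ℝ) - W k 1 (a s0)| with hC
  filter_upwards [small_err k (k + 1) C hε, eventually_ge_atTop (a s0)] with n hn hn0
  have hG := sum_stage_le (G := fun _ => (k : ℝ) + 1) (fun _ => by positivity)
    (fun _ _ _ => le_rfl) s0 (stage n)
  have u1 := stage_induction (f := fun n => (cA k B 1 n : ℝ) - W k 1 n) (g := fun _ => (k : ℝ) + 1)
    (s0 := s0) (fun s hs c d h1 h2 h3 => (abs_le.1 (key s hs c d h1 h2 h3)).2) hn0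
  have u2 := stage_induction (f := fun n => -((cA k B 1 n : ℝ) - W k 1 n))
    (g := fun _ => (k : ℝ) + 1)
    (s0 := s0) (fun s hs c d h1 h2 h3 => by
      have := (abs_le.1 (key s hs c d h1 h2 h3)).1
      linarith) hn0
  have h1 : ((stage n : ℝ) + 1) * ((k : ℝ) + 1) ≤
      (((stage n + 1) * (M (stage n) * stage n ^ (k + 1) + (k + 1)) : ℕ) : ℝ) := by
    have : (stage n + 1) * (k + 1) ≤ (stage n + 1) * (M (stage n) * stage n ^ (k + 1) + (k + 1)) :=
      Nat.mul_le_mul_left _ (by omega)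
    exact_mod_cast this
  have h2 := le_abs_self ((cA k B 1 (a s0) : ℝ) - W k 1 (a s0))
  have h3 := neg_abs_le ((cA k B 1 (a s0) : ℝ) - W k 1 (a s0))
  rw [← hC] at h2 h3
  rw [abs_le]
  constructor <;> linarith

lemma ratio_bound {k s : ℕ} (h : k + 1 ≤ s) : M s * s ^ (k + 1) * s ≤ b s := by
  have h1 : M s ≤ (s + 2)! := Nat.factorial_le (by omega)
  have h2 : s ≤ (s + 2)! := by
    have := Nat.self_le_factorial (s + 2)
    omega
  calc M s * s ^ (k + 1) * s ≤ (s + 2)! * ((s + 2)!) ^ (k + 1) * (s + 2)! :=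
        Nat.mul_le_mul (Nat.mul_le_mul h1 (Nat.pow_le_pow_left h2 _)) h2
    _ = ((s + 2)!) ^ (k + 3) := by ring
    _ ≤ ((s + 2)!) ^ (s + 2) := Nat.pow_le_pow_right (Nat.factorial_pos _) (by omega)

lemma O_bound {k : ℕ} (hk : 1 ≤ k) (B : ℕ → ℕ) {ε : ℝ} (hε : 0 < ε) :
    ∀ᶠ n in atTop, (cO k B 1 n : ℝ) ≤ ε * W k 1 n := by
  obtain ⟨s1, hs1⟩ := exists_s0 k B
  obtain ⟨N, hN⟩ := exists_nat_gt (1 / (min (ε / 2) 1))
  set δ : ℝ := min (ε / 2) 1 with hδ
  have hδ0 : 0 < δ := lt_min (by positivity) one_pos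
  have hδ1 : δ ≤ 1 := min_le_right _ _
  have hδε : δ ≤ ε / 2 := min_le_left _ _
  set s0 := s1 + k + 1 + N with hs0
  have key : ∀ s, s0 ≤ s → ∀ c d, a s ≤ c → c ≤ d → d ≤ a (s + 1) →
      ((cO k B 1 d : ℝ) - δ * W k 1 d) - ((cO k B 1 c : ℝ) - δ * W k 1 c) ≤
        ((M s * s ^ (k + 1) + k : ℕ) : ℝ) := by
    intro s hs c d h1 h2 h3
    obtain ⟨hB, hkM⟩ := hs1 s (by omega)
    have hc1 : 1 ≤ c := (one_le_a s).trans h1
    rw [cO_add k B hc1 h2, W_add k hc1 h2]
    have h4 := cO_stage hk hB hkM h1 h3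
    have hbs := bR_pos s
    have hb1 : (1 : ℝ) ≤ (b s : ℝ) ^ k := by
      apply one_le_pow₀
      exact_mod_cast b_pos s
    have hb : (0 : ℝ) < (b s : ℝ) ^ k := by linarith
    have h7 := W_lower (c := c) k h3
    have h8 : (((d - c) / b s ^ (k + 1) : ℕ) : ℝ) ≤ ((d : ℝ) - c) / (b s : ℝ) ^ (k + 1) := by
      have := @Nat.cast_div_le ℝ _ _ _ (d - c) (b s ^ (k + 1))
      rw [Nat.cast_sub h2] at this
      push_cast at this ⊢
      exact this
    have h9 : (cO k B c d : ℝ) ≤
        ((M s * s ^ (k + 1) : ℕ) : ℝ) * ((((d - c) / b s ^ (k + 1) : ℕ) : ℝ) + 1) := by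
      exact_mod_cast h4
    have h12 : (k : ℝ) / (b s : ℝ) ^ k ≤ k := div_le_self (by positivity) hb1
    have h13 : ((d : ℝ) - c - k) / (b s : ℝ) ^ k = ((d : ℝ) - c) / (b s : ℝ) ^ k - k / (b s : ℝ) ^ k := by
      ring
    rw [h13] at h7
    have h14 : ((M s * s ^ (k + 1) : ℕ) : ℝ) ≤ δ * b s := by
      have h15 : ((M s * s ^ (k + 1) * s : ℕ) : ℝ) ≤ b s := by
        exact_mod_cast ratio_bound (k := k) (s := s) (by omega)
      have h16 : (N : ℝ) ≤ s := by exact_mod_cast (by omega : N ≤ s)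
      have h17 : 1 / δ < s := by linarith
      have h18 : 1 < s * δ := by rwa [div_lt_iff₀ hδ0] at h17
      have h19 : (0 : ℝ) ≤ ((M s * s ^ (k + 1) : ℕ) : ℝ) := by positivity
      have h20 : ((M s * s ^ (k + 1) : ℕ) : ℝ) * s ≤ b s := by
        have : ((M s * s ^ (k + 1) * s : ℕ) : ℝ) = ((M s * s ^ (k + 1) : ℕ) : ℝ) * s := by
          push_cast; ring
        rw [← this]; exact h15
      calc ((M s * s ^ (k + 1) : ℕ) : ℝ) = ((M s * s ^ (k + 1) : ℕ) : ℝ) * 1 := by ring
        _ ≤ ((M s * s ^ (k + 1) : ℕ) : ℝ) * (s * δ) := mul_le_mul_of_nonneg_left h18.le h19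
        _ = δ * (((M s * s ^ (k + 1) : ℕ) : ℝ) * s) := by ring
        _ ≤ δ * b s := mul_le_mul_of_nonneg_left h20 hδ0.le
    have hdc : (0 : ℝ) ≤ (d : ℝ) - c := by
      have : (c : ℝ) ≤ d := by exact_mod_cast h2
      linarith
    have h21 : ((M s * s ^ (k + 1) : ℕ) : ℝ) * (((d - c) / b s ^ (k + 1) : ℕ) : ℝ) ≤
        δ * (((d : ℝ) - c) / (b s : ℝ) ^ k) := by
      calc ((M s * s ^ (k + 1) : ℕ) : ℝ) * (((d - c) / b s ^ (k + 1) : ℕ) : ℝ)
          ≤ (δ * b s) * (((d : ℝ) - c) / (b s : ℝ) ^ (k + 1)) := by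
            apply mul_le_mul h14 h8 (by positivity) (by positivity)
        _ = δ * (((d : ℝ) - c) / (b s : ℝ) ^ k) := by
            rw [pow_succ]; field_simp
    have h22 : δ * (((d : ℝ) - c) / (b s : ℝ) ^ k) ≤ δ * (W k c d + k) := by
      apply mul_le_mul_of_nonneg_left _ hδ0.le
      linarith
    have h23 : δ * k ≤ k := by
      have hk0 : (0 : ℝ) ≤ k := by positivity
      nlinarith
    push_cast at h9 h21 ⊢
    nlinarith
  set C : ℝ := (cO k B 1 (a s0) : ℝ) - δ * W k 1 (a s0) with hC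
  filter_upwards [small_err k k C (half_pos hε), eventually_ge_atTop (a s0)] with n hn hn0
  have hG := sum_stage_le (G := fun t => ((M t * t ^ (k + 1) + k : ℕ) : ℝ))
    (fun _ => by positivity) (GM_mono k k) s0 (stage n)
  have u1 := stage_induction (f := fun n => (cO k B 1 n : ℝ) - δ * W k 1 n)
    (g := fun t => ((M t * t ^ (k + 1) + k : ℕ) : ℝ)) (s0 := s0) key hn0
  have h2 : ((stage n : ℝ) + 1) * ((M (stage n) * stage n ^ (k + 1) + k : ℕ) : ℝ) =
      (((stage n + 1) * (M (stage n) * stage n ^ (k + 1) + k) : ℕ) : ℝ) := by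
    push_cast; ring
  rw [h2] at hG
  have h3 : δ * W k 1 n ≤ ε / 2 * W k 1 n := mul_le_mul_of_nonneg_right hδε (W_nonneg _ _ _)
  linarith

lemma tendsto_A {k : ℕ} (hk : 1 ≤ k) (B : ℕ → ℕ) :
    Tendsto (fun n => (cA k B 1 n : ℝ) / W k 1 n) atTop (𝓝 1) := by
  rw [Metric.tendsto_atTop']
  intro ε hε
  have h1 := A_bound hk B (half_pos hε)
  have h2 := (tendsto_W k).eventually_gt_atTop 0
  obtain ⟨N, hN⟩ := eventually_atTop.1 (h1.and h2)
  refine ⟨N, fun n hn => ?_⟩
  obtain ⟨h3, h4⟩ := hN n hn.le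
  rw [Real.dist_eq]
  have h5 : (cA k B 1 n : ℝ) / W k 1 n - 1 = ((cA k B 1 n : ℝ) - W k 1 n) / W k 1 n := by
    field_simp
  rw [h5, abs_div, abs_of_pos h4, div_lt_iff₀ h4]
  nlinarith

lemma tendsto_O {k : ℕ} (hk : 1 ≤ k) (B : ℕ → ℕ) :
    Tendsto (fun n => (cO k B 1 n : ℝ) / W k 1 n) atTop (𝓝 0) := by
  rw [Metric.tendsto_atTop']
  intro ε hε
  have h1 := O_bound hk B (half_pos hε)
  have h2 := (tendsto_W k).eventually_gt_atTop 0
  obtain ⟨N, hN⟩ := eventually_atTop.1 (h1.and h2)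
  refine ⟨N, fun n hn => ?_⟩
  obtain ⟨h3, h4⟩ := hN n hn.le
  rw [Real.dist_eq, sub_zero, abs_of_nonneg (by positivity), div_lt_iff₀ h4]
  nlinarith


lemma isBasic_q : IsBasic q := by
  intro n _
  have := b_ge (stage n)
  unfold q
  omega

lemma E_lt (n : ℕ) : E n + 1 < q n := by
  have h1 := dig_le (stage n) (n / M (stage n)) (n % M (stage n))
  have h2 := b_ge (stage n)
  unfold E q
  omega

lemma tendsto_q : Tendsto q atTop atTop := by
  apply tendsto_atTop_mono _ tendsto_stage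
  intro n
  have := b_ge (stage n)
  unfold q
  omega

/-- extension of a block by zeros -/
def ext {k : ℕ} (B : Fin k → ℕ) (u : ℕ) : ℕ := if h : u < k then B ⟨u, h⟩ else 0

lemma occ_ext {k : ℕ} (B : Fin k → ℕ) (i : ℕ) : OccursAt E B i ↔ occ k (ext B) i := by
  unfold OccursAt occ ext
  constructor
  · intro h u hu
    rw [dif_pos hu]
    exact h ⟨u, hu⟩
  · intro h j
    have := h j j.2
    rw [dif_pos j.2] at this
    exact this

lemma Icc_eq_Ico (n : ℕ) : Finset.Icc 1 n = Finset.Ico 1 (n + 1) := by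
  ext x; simp only [Finset.mem_Icc, Finset.mem_Ico]; omega

lemma blockCount_eq {k : ℕ} (B : Fin k → ℕ) (n : ℕ) :
    blockCount E B n = cA k (ext B) 1 (n + 1) + cO k (ext B) 1 (n + 1) := by
  classical
  unfold blockCount cA cO
  rw [Icc_eq_Ico, ← Finset.card_union_of_disjoint]
  · congr 1
    ext i
    simp only [Finset.mem_union, Finset.mem_filter, occ_ext]
    tauto
  · rw [Finset.disjoint_left]
    intro i h1 h2
    rw [Finset.mem_filter] at h1 h2
    exact h2.2.1 h1.2.1

lemma weight_eq (k n : ℕ) : weight q k n = W k 1 (n + 1) := by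
  unfold weight W
  rw [Icc_eq_Ico]

lemma weightAP_bound (k : ℕ) {m r : ℕ} (hr : r < m) (n : ℕ) :
    |m * weightAP q k m r n - W k 1 (n + 1)| ≤ m := by
  rw [← weight_eq]
  exact ap_bound (w := wt q k) (fun i _ => wt_anti k i) (wt_nonneg k) (wt_le_one k 1) hr n

lemma tendsto_W' (k : ℕ) : Tendsto (fun n => W k 1 (n + 1)) atTop atTop :=
  (tendsto_W k).comp (tendsto_add_atTop_nat 1)

lemma fullyDivergent_q : FullyDivergentI q := by
  intro k m r _ hm hr
  have h1 : Tendsto (fun n => (W k 1 (n + 1) + (-(m : ℝ))) / m) atTop atTop :=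
    (tendsto_atTop_add_const_right _ _ (tendsto_W' k)).atTop_div_const
      (by exact_mod_cast hm)
  refine tendsto_atTop_mono (fun n => ?_) h1
  have h2 := (abs_le.1 (weightAP_bound k hr n)).1
  have h3 : (0 : ℝ) < m := by exact_mod_cast hm
  rw [div_le_iff₀ h3]
  linarith

lemma normal_q {k : ℕ} (hk : 1 ≤ k) (B : Fin k → ℕ) :
    Tendsto (fun n => (blockCount E B n : ℝ) / weight q k n) atTop (𝓝 1) := by
  have h1 := ((tendsto_A hk (ext B)).comp (tendsto_add_atTop_nat 1)).add
    ((tendsto_O hk (ext B)).comp (tendsto_add_atTop_nat 1))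
  rw [add_zero] at h1
  refine h1.congr (fun n => ?_)
  simp only [Function.comp]
  rw [blockCount_eq, weight_eq]
  push_cast
  ring

/-- `Q^{(k)}_{n,m,r} / Q^{(k)}_n → 1 / m` -/
lemma tendsto_weightAP_ratio (k : ℕ) {m r : ℕ} (hr : r < m) :
    Tendsto (fun n => weightAP q k m r n / W k 1 (n + 1)) atTop (𝓝 (1 / m)) := by
  have hm : (0 : ℝ) < m := by exact_mod_cast (by omega : 0 < m)
  have h1 : Tendsto (fun n => (m : ℝ) / W k 1 (n + 1)) atTop (𝓝 0) :=
    (tendsto_W' k).const_div_atTop _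
  rw [tendsto_iff_dist_tendsto_zero]
  have h2 : Tendsto (fun n => (1 / (m : ℝ)) * ((m : ℝ) / W k 1 (n + 1))) atTop (𝓝 0) := by
    simpa using h1.const_mul (1 / (m : ℝ))
  refine squeeze_zero' (Eventually.of_forall (fun n => dist_nonneg)) ?_ h2
  filter_upwards [(tendsto_W' k).eventually_gt_atTop 0] with n hn
  have h3 := weightAP_bound k hr n
  rw [Real.dist_eq]
  have h4 : weightAP q k m r n / W k 1 (n + 1) - 1 / m =
      (m * weightAP q k m r n - W k 1 (n + 1)) / (m * W k 1 (n + 1)) := by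
    field_simp
  rw [h4, abs_div, abs_of_pos (mul_pos hm hn)]
  have h5 : 1 / (m : ℝ) * (m / W k 1 (n + 1)) = m / (m * W k 1 (n + 1)) := by
    field_simp
  rw [h5]
  exact div_le_div_of_nonneg_right h3 (mul_pos hm hn).le

lemma dvd_M_stage {m i : ℕ} (hm : 1 ≤ m) (h : a m ≤ i) : m ∣ M (stage i) :=
  Nat.dvd_factorial (by omega) (le_stage h)

/-- almost all occurrences at slot starts are at multiples of `m` -/
lemma cA_le_AP {k m : ℕ} (hm : 1 ≤ m) (B : Fin k → ℕ) (n : ℕ) :
    cA k (ext B) 1 (n + 1) ≤ blockCountAP E B m 0 n + a m := by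
  classical
  unfold cA blockCountAP
  rw [Icc_eq_Ico]
  have : ((Finset.Ico 1 (n + 1)).filter (fun i => M (stage i) ∣ i ∧ occ k (ext B) i)) ⊆
      ((Finset.Ico 1 (n + 1)).filter (fun i => i ≡ 0 [MOD m] ∧ OccursAt E B i)) ∪
        Finset.range (a m) := by
    intro i hi
    rw [Finset.mem_filter] at hi
    rw [Finset.mem_union, Finset.mem_filter, Finset.mem_range]
    by_cases h : a m ≤ i
    · left
      refine ⟨hi.1, ?_, (occ_ext B i).2 hi.2.2⟩
      exact (Nat.modEq_zero_iff_dvd).2 ((dvd_M_stage hm h).trans hi.2.1)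
    · right
      omega
  refine (Finset.card_le_card this).trans ((Finset.card_union_le _ _).trans ?_)
  rw [Finset.card_range]

/-- almost all occurrences at non-multiples of `m` are off slot starts -/
lemma AP_le_cO {k m r : ℕ} (hm : 1 ≤ m) (hr : r < m) (hr0 : r ≠ 0) (B : Fin k → ℕ) (n : ℕ) :
    blockCountAP E B m r n ≤ cO k (ext B) 1 (n + 1) + a m := by
  classical
  unfold cO blockCountAP
  rw [Icc_eq_Ico]
  have : ((Finset.Ico 1 (n + 1)).filter (fun i => i ≡ r [MOD m] ∧ OccursAt E B i)) ⊆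
      ((Finset.Ico 1 (n + 1)).filter (fun i => ¬ M (stage i) ∣ i ∧ occ k (ext B) i)) ∪
        Finset.range (a m) := by
    intro i hi
    rw [Finset.mem_filter] at hi
    rw [Finset.mem_union, Finset.mem_filter, Finset.mem_range]
    by_cases h : a m ≤ i
    · left
      refine ⟨hi.1, ?_, (occ_ext B i).1 hi.2.2⟩
      intro h2
      have h3 : i ≡ 0 [MOD m] := (Nat.modEq_zero_iff_dvd).2 ((dvd_M_stage hm h).trans h2)
      have h4 : r ≡ 0 [MOD m] := hi.2.1.symm.trans h3
      have h5 := Nat.le_of_dvd (by omega) ((Nat.modEq_zero_iff_dvd).1 h4)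
      omega
    · right
      omega
  refine (Finset.card_le_card this).trans ((Finset.card_union_le _ _).trans ?_)
  rw [Finset.card_range]

lemma not_AP {k m r : ℕ} (hk : 1 ≤ k) (hm : 2 ≤ m) (hr : r < m) (B : Fin k → ℕ) :
    ¬ Tendsto (fun n => (blockCountAP E B m r n : ℝ) / weightAP q k m r n) atTop (𝓝 1) := by
  intro h
  have hmR : (2 : ℝ) ≤ m := by exact_mod_cast hm
  have hm0 : (0 : ℝ) < 1 / m := by positivity
  have hdiv := fullyDivergent_q k m r hk (by omega) hr
  -- ratio with the full weight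
  have h1 : Tendsto (fun n => (blockCountAP E B m r n : ℝ) / W k 1 (n + 1)) atTop (𝓝 (1 / m)) := by
    have h2 := h.mul (tendsto_weightAP_ratio k hr)
    rw [one_mul] at h2
    refine h2.congr' ?_
    filter_upwards [hdiv.eventually_gt_atTop 0] with n hn
    field_simp
  have hc : Tendsto (fun n => ((a m : ℕ) : ℝ) / W k 1 (n + 1)) atTop (𝓝 0) :=
    (tendsto_W' k).const_div_atTop _
  by_cases hr0 : r = 0
  · subst hr0
    have h3 : Tendsto (fun n => (cA k (ext B) 1 (n + 1) : ℝ) / W k 1 (n + 1)) atTop (𝓝 1) :=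
      (tendsto_A hk (ext B)).comp (tendsto_add_atTop_nat 1)
    have h4 := h1.add hc
    rw [add_zero] at h4
    have h5 : (1 : ℝ) ≤ 1 / m := by
      apply le_of_tendsto_of_tendsto' h3 h4
      intro n
      rw [← add_div]
      apply div_le_div_of_nonneg_right _ (W_nonneg _ _ _)
      exact_mod_cast cA_le_AP (by omega) B n
    rw [le_div_iff₀ (by linarith)] at h5
    linarith
  · have h3 : Tendsto (fun n => (cO k (ext B) 1 (n + 1) : ℝ) / W k 1 (n + 1)) atTop (𝓝 0) :=
      (tendsto_O hk (ext B)).comp (tendsto_add_atTop_nat 1)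
    have h4 := h3.add hc
    rw [add_zero] at h4
    have h5 : (1 : ℝ) / m ≤ 0 := by
      apply le_of_tendsto_of_tendsto' h1 h4
      intro n
      rw [← add_div]
      apply div_le_div_of_nonneg_right _ (W_nonneg _ _ _)
      exact_mod_cast AP_le_cO (by omega) hr hr0 B n
    linarith

/-- Main theorem: there are a basic sequence `q → ∞`, fully divergent of type I, and a real `x`
that is `Q`-normal (of all orders), but for every order `k ≥ 1`, every modulus `m ≥ 2` and every
residue `r < m`, `x` is not in `N^{AP}_k(Q; m, r)`. -/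
theorem result : ∃ (q : ℕ → ℕ) (x : ℝ),
    IsBasic q ∧ Monotone q ∧ Tendsto q atTop atTop ∧ FullyDivergentI q ∧
    x ∈ NormalSet q \ ⋃ (k : ℕ) (_ : 1 ≤ k) (m : ℕ) (_ : 2 ≤ m) (r : ℕ) (_ : r < m),
      APNormalSet q k m r := by
  have hE : ∀ n, 1 ≤ n → E n < q n := fun n _ => by have := E_lt n; omega
  have hf : ∃ᶠ n in atTop, E n ≠ q n - 1 :=
    (Eventually.of_forall (fun n => by have := E_lt n; omega)).frequently
  obtain ⟨x, hx⟩ := exists_expansion isBasic_q hE hf
  refine ⟨q, x, isBasic_q, q_mono, tendsto_q, fullyDivergent_q, ?_, ?_⟩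
  · exact ⟨E, hx, fun k hk B => normal_q hk B⟩
  · intro hmem
    simp only [Set.mem_iUnion] at hmem
    obtain ⟨k, hk, m, hm, r, hr, E', hE', hAP⟩ := hmem
    apply not_AP hk hm hr (fun _ => 0)
    have huniq := expansion_unique isBasic_q hx hE'
    refine (hAP (fun _ => 0)).congr (fun n => ?_)
    have : blockCountAP E' (fun _ : Fin k => 0) m r n = blockCountAP E (fun _ : Fin k => 0) m r n := by
      unfold blockCountAP
      congr 1
      apply Finset.filter_congr
      intro i hi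
      rw [Finset.mem_Icc] at hi
      have : OccursAt E' (fun _ : Fin k => 0) i ↔ OccursAt E (fun _ : Fin k => 0) i := by
        unfold OccursAt
        apply forall_congr'
        intro j
        rw [huniq (i + j) (by omega)]
      rw [this]
    rw [this]

end Pool.Agent.Results.MP_8144ad_nt.TotalAPFailure
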